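import Mathlib
import Pool.Agent.S03661

set_option autoImplicit false

namespace Pool.Agent.Results.MP_98de44_an.FullWeakMixing

open MeasureTheory Set

/-- `S` is weakly mixing: ergodic, conservative, and every `L^∞` eigenfunction is a.e. constant -/
def IsWeaklyMixing {Y : Type} [MeasurableSpace Y] (ν : Measure Y) (S : Y → Y) : Prop :=
  Ergodic S ν ∧ Conservative S ν ∧
    ∀ f : Y → ℂ, MemLp f ⊤ ν → ∀ c : ℂ, (∀ᵐ y ∂ν, f (S y) = c * f y) →
      ∃ a : ℂ, ∀ᵐ y ∂ν, f y = a

/-- an ergodic invertible transformation of an atomless space is conservative -/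
lemma conservative_of_ergodic {Y : Type} [MeasurableSpace Y] [StandardBorelSpace Y]
    (ν : Measure Y) [NullSingletonClass ν] (S : Y ≃ᵐ Y) (hS : Ergodic S ν) :
    Conservative S ν := by
  refine ⟨hS.toMeasurePreserving.quasiMeasurePreserving, fun W hW hW0 => ?_⟩
  by_contra hcon
  push Not at hcon
  -- `hcon : ∀ x ∈ W, ∀ m ≠ 0, S^[m] x ∉ W`
  have key : ∀ U : Set Y, MeasurableSet U → ν (W ∩ U) = 0 ∨ ν (W \ U) = 0 := by
    intro U hU
    by_cases h0 : ν (W ∩ U) = 0
    · exact Or.inl h0
    right
    let A : Set Y := W ∩ U
    have hA : MeasurableSet A := hW.inter hU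
    let I : Set Y := {y | ∃ n : ℕ, S^[n] y ∈ A ∨ S.symm^[n] y ∈ A}
    have hIe : I = ⋃ n : ℕ, ((S^[n]) ⁻¹' A ∪ (S.symm^[n]) ⁻¹' A) := by
      ext y; simp [I]
    have hI : MeasurableSet I := by
      rw [hIe]
      exact MeasurableSet.iUnion fun n =>
        ((S.measurable.iterate n) hA).union ((S.symm.measurable.iterate n) hA)
    have hinv : S ⁻¹' I = I := by
      ext y
      simp only [I, mem_preimage, mem_ofPred_eq]
      constructor
      · rintro ⟨n, h | h⟩
        · exact ⟨n + 1, Or.inl (by rw [Function.iterate_succ_apply]; exact h)⟩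
        · rcases n with _ | n
          · exact ⟨1, Or.inl (by simpa using h)⟩
          · refine ⟨n, Or.inr ?_⟩
            rw [Function.iterate_succ_apply, MeasurableEquiv.symm_apply_apply] at h
            exact h
      · rintro ⟨n, h | h⟩
        · rcases n with _ | n
          · refine ⟨1, Or.inr ?_⟩
            simpa using h
          · refine ⟨n, Or.inl ?_⟩
            rw [Function.iterate_succ_apply] at h
            exact h
        · refine ⟨n + 1, Or.inr ?_⟩
          rw [Function.iterate_succ_apply, MeasurableEquiv.symm_apply_apply]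
          exact h
    rcases hS.toPreErgodic.measure_self_or_compl_eq_zero hI hinv with h1 | h1
    · exact absurd (measure_mono_null (fun y hy => ⟨0, Or.inl hy⟩ : A ⊆ I) h1) h0
    · refine measure_mono_null ?_ h1
      rintro y ⟨hyW, hyU⟩ ⟨n, h | h⟩
      · rcases n with _ | n
        · exact hyU h.2
        · exact hcon y hyW (n + 1) (by omega) h.1
      · rcases n with _ | n
        · exact hyU h.2
        · refine hcon _ h.1 (n + 1) (by omega) ?_
          have : S^[n + 1] (S.symm^[n + 1] y) = y := by
            have hl : Function.LeftInverse (S : Y → Y) (S.symm : Y → Y) := fun z => by simp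
            exact (hl.iterate (n + 1)) y
          rw [this]
          exact hyW
  obtain ⟨t, ht, htl⟩ := Filter.exists_subsingleton_mem_of_forall_separating
    (l := ae (ν.restrict W)) MeasurableSet (by
      intro U hU
      rcases key U hU with h | h
      · right
        rw [mem_ae_iff, compl_compl, Measure.restrict_apply hU, inter_comm]
        exact h
      · left
        rw [mem_ae_iff, Measure.restrict_apply hU.compl, inter_comm]
        exact h)
  have ht0 : ν t = 0 := ht.measure_zero ν
  have htm : MeasurableSet t := ht.measurableSet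
  rw [mem_ae_iff, Measure.restrict_apply htm.compl] at htl
  apply hW0
  have hsub : W ⊆ (tᶜ ∩ W) ∪ t := by
    intro y hy
    by_cases hyt : y ∈ t
    · exact Or.inr hyt
    · exact Or.inl ⟨hyt, hy⟩
  exact measure_mono_null hsub (measure_union_null htl ht0)

/-- Let `T` be an invertible measure preserving transformation of an infinite `σ`-finite atomless
standard measure space. If `T × T` is ergodic, then `T × T` is weakly mixing. -/
theorem result :
    ∀ (X : Type) [MeasurableSpace X] [StandardBorelSpace X] (μ : Measure X) [SigmaFinite μ]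
      [NullSingletonClass μ] (T : X ≃ᵐ X), μ univ = ⊤ → MeasurePreserving T μ μ →
      Ergodic (Prod.map T T) (μ.prod μ) → IsWeaklyMixing (μ.prod μ) (Prod.map T T) := by
  intro X _ _ μ _ _ T _ hT hR
  refine ⟨hR, ?_, ?_⟩
  · have e : ⇑(T.prodCongr T) = Prod.map T T := rfl
    have h := conservative_of_ergodic (μ.prod μ) (T.prodCongr T) (by rw [e]; exact hR)
    rw [e] at h
    exact h
  · intro f hf c hfc
    let g : X × X → ℂ := hf.1.mk f
    have hg : Measurable g := hf.1.stronglyMeasurable_mk.measurable
    have hfg : ∀ᵐ y ∂(μ.prod μ), f y = g y := hf.1.ae_eq_mk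
    have hq := hR.toMeasurePreserving.quasiMeasurePreserving.ae hfg
    obtain ⟨a, ha⟩ := Pool.Agent.S03661.core μ T hT hR g hg c (by
      filter_upwards [hfg, hq, hfc] with y h1 h2 h3
      rw [← h1, ← h2, h3])
    refine ⟨a, ?_⟩
    filter_upwards [ha, hfg] with y h1 h2
    rw [h2, h1]

end Pool.Agent.Results.MP_98de44_an.FullWeakMixing
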